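import Mathlib.Algebra.Module.PID
import Mathlib.Algebra.Polynomial.Module.AEval
import Mathlib.LinearAlgebra.Matrix.GeneralLinearGroup.Defs
import Mathlib.LinearAlgebra.Matrix.ToLin
import Mathlib.LinearAlgebra.Dimension.Constructions
import Mathlib.RingTheory.AdjoinRoot

/-!
RK-Nil. The nilpotent matrices of size `m` over a field are in at most `(m + 1) ^ m` classes.
-/

set_option autoImplicit false

namespace Pool.Agent.Helper13.RK

open Polynomial Module DirectSum

variable {F : Type} [Field F]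

/-- The cyclic module `F[X] / X ^ k`. -/
abbrev Q (F : Type) [Field F] (k : ℕ) : Type := F[X] ⧸ (F[X] ∙ (X : F[X]) ^ k)

lemma finrank_Q (k : ℕ) : finrank F (Q F k) = k := by
  have h := finrank_quotient_span_eq_natDegree (f := (X : F[X]) ^ k)
  rw [natDegree_X_pow] at h
  exact h

lemma finite_Q (k : ℕ) : Module.Finite F (Q F k) := by
  have h : Module.Finite F (AdjoinRoot ((X : F[X]) ^ k)) :=
    (monic_X_pow k).finite_adjoinRoot
  exact h

lemma exists_dec {V : Type} [AddCommGroup V] [Module F V] [FiniteDimensional F V] (f : V →ₗ[F] V)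
    (hf : IsNilpotent f) : ∃ (ι : Type) (_ : Fintype ι) (k : ι → ℕ), (∀ i, 0 < k i) ∧
      Nonempty (AEval' f ≃ₗ[F[X]] ∀ i, Q F (k i)) := by
  classical
  obtain ⟨n, hn⟩ := hf
  have htor : Module.IsTorsion' (AEval' f) (Submonoid.powers (X : F[X])) := by
    intro (x : AEval' f)
    refine ⟨⟨X ^ n, n, rfl⟩, ?_⟩
    show (X ^ n : F[X]) • x = 0
    obtain ⟨v, rfl⟩ := (AEval'.of f).surjective x
    rw [AEval'.X_pow_smul_of, hn, zero_smul, map_zero]
  obtain ⟨d, k, ⟨e⟩⟩ := torsion_by_prime_power_decomposition (irreducible_X (R := F)) htor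
  have e2 : (∀ i : Fin d, Q F (k i)) ≃ₗ[F[X]] ∀ i : {i : Fin d // 0 < k i}, Q F (k i) :=
    { toFun := fun g i => g i
      map_add' := fun _ _ => rfl
      map_smul' := fun _ _ => rfl
      invFun := fun g i => if h : 0 < k i then g ⟨i, h⟩ else 0
      left_inv := by
        intro g
        funext i
        show (if h : 0 < k i then g i else 0) = g i
        split_ifs with h
        · rfl
        · have h0 : k i = 0 := by omega
          have : Subsingleton (Q F (k i)) := by
            rw [h0]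
            show Subsingleton (F[X] ⧸ (F[X] ∙ (X : F[X]) ^ 0))
            rw [pow_zero]
            exact Ideal.Quotient.subsingleton_iff.2 Ideal.span_singleton_one
          exact Subsingleton.elim _ _
      right_inv := by
        intro g
        funext i
        show (if h : 0 < k i then g ⟨i, h⟩ else 0) = g i
        rw [dif_pos i.2] }
  exact ⟨{i : Fin d // 0 < k i}, inferInstance, fun i => k i, fun i => i.2,
    ⟨(e.trans (DirectSum.linearEquivFunOnFintype F[X] (Fin d) fun i => Q F (k i))).trans e2⟩⟩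

/-- Two families of numbers with the same fibres. -/
lemma exists_equiv {ι κ : Type} [Finite ι] [Finite κ] (k : ι → ℕ) (l : κ → ℕ)
    (h : ∀ j, Nat.card {i // k i = j} = Nat.card {i // l i = j}) :
    ∃ σ : ι ≃ κ, ∀ i, l (σ i) = k i := by
  have e : ∀ j, Nonempty ({i // k i = j} ≃ {i // l i = j}) := fun j =>
    Finite.card_eq.1 (h j)
  refine ⟨(Equiv.sigmaFiberEquiv k).symm.trans
    ((Equiv.sigmaCongrRight fun j => (e j).some).trans (Equiv.sigmaFiberEquiv l)), fun i => ?_⟩
  exact ((e (k i)).some ⟨i, rfl⟩).2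

/-- Reindexing of the cyclic modules. -/
lemma equiv_pi {ι κ : Type} (k : ι → ℕ) (l : κ → ℕ) (σ : ι ≃ κ) (h : ∀ i, l (σ i) = k i) :
    Nonempty ((∀ i, Q F (k i)) ≃ₗ[F[X]] ∀ i, Q F (l i)) := by
  have e1 : (∀ i, Q F (k i)) ≃ₗ[F[X]] ∀ i, Q F (l (σ i)) :=
    LinearEquiv.piCongrRight fun i => Submodule.quotEquivOfEq _ _ (by rw [h i])
  exact ⟨e1.trans (LinearEquiv.piCongrLeft F[X] (fun i => Q F (l i)) σ)⟩

/-- The number of the summands of each size. -/
def IsType {V : Type} [AddCommGroup V] [Module F V] (f : V →ₗ[F] V) (m : ℕ)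
    (t : Fin m → Fin (m + 1)) : Prop :=
  ∃ (ι : Type) (_ : Fintype ι) (k : ι → ℕ), (∀ i, 0 < k i ∧ k i ≤ m) ∧
    (∀ j : Fin m, (t j : ℕ) = Nat.card {i // k i = j + 1}) ∧
      Nonempty (AEval' f ≃ₗ[F[X]] ∀ i, Q F (k i))

lemma exists_type {V : Type} [AddCommGroup V] [Module F V] [FiniteDimensional F V]
    (f : V →ₗ[F] V) (hf : IsNilpotent f) : ∃ t, IsType f (finrank F V) t := by
  classical
  obtain ⟨ι, hι, k, hk, ⟨e⟩⟩ := exists_dec f hf
  have hfin : ∀ i, Module.Finite F (Q F (k i)) := fun i => finite_Q _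
  have hsum : ∑ i, k i = finrank F V := by
    have e' : V ≃ₗ[F] ∀ i, Q F (k i) := (AEval'.of f).trans (e.restrictScalars F)
    rw [e'.finrank_eq, Module.finrank_pi_fintype]
    exact Finset.sum_congr rfl fun i _ => (finrank_Q _).symm
  have hle : ∀ i, k i ≤ finrank F V := fun i => by
    rw [← hsum]
    exact Finset.single_le_sum (fun _ _ => Nat.zero_le _) (Finset.mem_univ i)
  have hcard : Nat.card ι ≤ finrank F V := by
    rw [← hsum, Nat.card_eq_fintype_card, ← Finset.card_univ, Finset.card_eq_sum_ones]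
    exact Finset.sum_le_sum fun i _ => hk i
  refine ⟨fun j => ⟨Nat.card {i // k i = j + 1}, ?_⟩, ι, hι, k, fun i => ⟨hk i, hle i⟩,
    fun j => rfl, ⟨e⟩⟩
  have := Nat.card_le_card_of_injective (Subtype.val : {i // k i = j + 1} → ι) Subtype.val_injective
  omega

lemma equiv_of_type {V W : Type} [AddCommGroup V] [Module F V] [AddCommGroup W] [Module F W]
    (f : V →ₗ[F] V) (g : W →ₗ[F] W) {m : ℕ} {t : Fin m → Fin (m + 1)} (hf : IsType f m t)
    (hg : IsType g m t) : Nonempty (AEval' f ≃ₗ[F[X]] AEval' g) := by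
  obtain ⟨ι, _, k, hk, hk', ⟨e⟩⟩ := hf
  obtain ⟨κ, _, l, hl, hl', ⟨e'⟩⟩ := hg
  obtain ⟨σ, hσ⟩ := exists_equiv k l (fun j => by
    rcases Nat.lt_or_ge 0 j with h0 | h0
    · rcases Nat.lt_or_ge m j with hm | hm
      · have h1 : IsEmpty {i // k i = j} := ⟨fun i => by have := (hk i.1).2; have := i.2; omega⟩
        have h2 : IsEmpty {i // l i = j} := ⟨fun i => by have := (hl i.1).2; have := i.2; omega⟩
        rw [Nat.card_of_isEmpty, Nat.card_of_isEmpty]
      · have h1 := hk' ⟨j - 1, by omega⟩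
        have h2 := hl' ⟨j - 1, by omega⟩
        have h3 : j - 1 + 1 = j := by omega
        simp only [h3] at h1 h2
        rw [← h1, ← h2]
    · have h1 : IsEmpty {i // k i = j} := ⟨fun i => by have := (hk i.1).1; have := i.2; omega⟩
      have h2 : IsEmpty {i // l i = j} := ⟨fun i => by have := (hl i.1).1; have := i.2; omega⟩
      rw [Nat.card_of_isEmpty, Nat.card_of_isEmpty])
  obtain ⟨e3⟩ := equiv_pi (F := F) k l σ hσ
  exact ⟨(e.trans e3).trans e'.symm⟩

/-- An isomorphism of the modules is a conjugation. -/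
lemma conj_of_equiv {V W : Type} [AddCommGroup V] [Module F V] [AddCommGroup W] [Module F W]
    (f : V →ₗ[F] V) (g : W →ₗ[F] W) (e : AEval' f ≃ₗ[F[X]] AEval' g) :
    ∃ u : V ≃ₗ[F] W, ∀ v, u (f v) = g (u v) := by
  refine ⟨((AEval'.of f).trans (e.restrictScalars F)).trans (AEval'.of g).symm, fun v => ?_⟩
  show (AEval'.of g).symm (e (AEval'.of f (f v))) = g ((AEval'.of g).symm (e (AEval'.of f v)))
  rw [← AEval'.X_smul_of, map_smul, AEval'.of_symm_X_smul]

/-- **The classes of nilpotent matrices.** -/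
theorem nil_classes (m : ℕ) (F : Type) [Field F] :
    ∃ t : Matrix (Fin m) (Fin m) F → (Fin m → Fin (m + 1)), ∀ a b : Matrix (Fin m) (Fin m) F,
      IsNilpotent a → IsNilpotent b → t a = t b →
        ∃ u : (Matrix (Fin m) (Fin m) F)ˣ, (u : Matrix (Fin m) (Fin m) F) * a = b * u := by
  classical
  have h1 : ∀ a : Matrix (Fin m) (Fin m) F, IsNilpotent a → ∃ t, IsType (Matrix.toLin' a) m t := by
    intro a ha
    have h2 : IsNilpotent (Matrix.toLin' a) := ha.map (Matrix.toLinAlgEquiv' (R := F) (n := Fin m))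
    have h3 := exists_type _ h2
    rwa [Module.finrank_fin_fun] at h3
  choose! t ht using h1
  refine ⟨t, fun a b ha hb hab => ?_⟩
  obtain ⟨e⟩ := equiv_of_type _ _ (ht a ha) (hab ▸ ht b hb)
  obtain ⟨u, hu⟩ := conj_of_equiv _ _ e
  refine ⟨⟨LinearMap.toMatrix' u.toLinearMap, LinearMap.toMatrix' u.symm.toLinearMap, ?_, ?_⟩, ?_⟩
  · rw [← LinearMap.toMatrix'_comp, LinearEquiv.comp_symm, LinearMap.toMatrix'_id]
  · rw [← LinearMap.toMatrix'_comp, LinearEquiv.symm_comp, LinearMap.toMatrix'_id]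
  · show LinearMap.toMatrix' u.toLinearMap * a = b * LinearMap.toMatrix' u.toLinearMap
    apply Matrix.toLin'.injective
    rw [Matrix.toLin'_mul, Matrix.toLin'_mul, Matrix.toLin'_toMatrix']
    exact LinearMap.ext hu

end Pool.Agent.Helper13.RK
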