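import Pool.Agent.Helper13.RK.Nil
import Mathlib.GroupTheory.SpecificGroups.Cyclic
import Mathlib.RingTheory.IntegralDomain
import Mathlib.LinearAlgebra.Matrix.ProjectiveSpecialLinearGroup
import Mathlib.LinearAlgebra.Matrix.CharP
import Mathlib.Algebra.CharP.Lemmas

/-!
RK-NilSL. The elements of order `p` of `PSL_m(F)`, `F` a finite field of characteristic `p`, are in at most
`m * (m + 1) ^ m` classes.
-/

set_option autoImplicit false

namespace Pool.Agent.Helper13.RK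

open Matrix

/-- Representatives. -/
lemma reps {X C : Type} [Finite C] [Nonempty X] {K : ℕ} (hK : Nat.card C ≤ K) (c : X → C)
    (good : X → Prop) : ∃ s : Fin K → X, ∀ x, good x → ∃ i, good (s i) ∧ c (s i) = c x := by
  classical
  let e : C → Fin K := fun y => Fin.castLE hK (Finite.equivFin C y)
  have he : Function.Injective e := fun a b h =>
    (Finite.equivFin C).injective (Fin.castLE_injective hK h)
  refine ⟨fun i => if h : ∃ x, good x ∧ e (c x) = i then h.choose else Classical.arbitrary X,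
    fun x hx => ⟨e (c x), ?_⟩⟩
  have h : ∃ y, good y ∧ e (c y) = e (c x) := ⟨x, hx, rfl⟩
  show good (if h : ∃ y, good y ∧ e (c y) = e (c x) then h.choose else Classical.arbitrary X) ∧
    c (if h : ∃ y, good y ∧ e (c y) = e (c x) then h.choose else Classical.arbitrary X) = c x
  rw [dif_pos h]
  exact ⟨h.choose_spec.1, he h.choose_spec.2⟩

/-- From `GL` to `SL`. -/
lemma conj_sl {m : ℕ} {F : Type} [Field F] {a b a' : Matrix (Fin m) (Fin m) F}
    (u v : (Matrix (Fin m) (Fin m) F)ˣ) (hu : (u : Matrix (Fin m) (Fin m) F) * a = a' * u)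
    (hv : (v : Matrix (Fin m) (Fin m) F) * b = a' * v) (z : Fˣ)
    (hz : Matrix.det (u : Matrix (Fin m) (Fin m) F) =
      Matrix.det (v : Matrix (Fin m) (Fin m) F) * (z : F) ^ m) :
    ∃ g : SpecialLinearGroup (Fin m) F, (g : Matrix (Fin m) (Fin m) F) * a = b * g := by
  have hv1 : Matrix.det ((v⁻¹ : (Matrix (Fin m) (Fin m) F)ˣ) : Matrix (Fin m) (Fin m) F) *
      Matrix.det (v : Matrix (Fin m) (Fin m) F) = 1 := by
    rw [← Matrix.det_mul, Units.inv_mul, Matrix.det_one]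
  refine ⟨⟨((z⁻¹ : Fˣ) : F) • (((v⁻¹ : (Matrix (Fin m) (Fin m) F)ˣ) : Matrix (Fin m) (Fin m) F) * u),
    ?_⟩, ?_⟩
  · rw [Matrix.det_smul, Matrix.det_mul, hz, ← mul_assoc (Matrix.det _) (Matrix.det _), hv1, one_mul,
      Fintype.card_fin, ← mul_pow, Units.inv_mul, one_pow]
  · show (((z⁻¹ : Fˣ) : F) • (((v⁻¹ : (Matrix (Fin m) (Fin m) F)ˣ) :
        Matrix (Fin m) (Fin m) F) * u)) * a = b * (((z⁻¹ : Fˣ) : F) •
        (((v⁻¹ : (Matrix (Fin m) (Fin m) F)ˣ) : Matrix (Fin m) (Fin m) F) * u))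
    rw [Matrix.smul_mul, Matrix.mul_smul, Matrix.mul_assoc, hu]
    congr 1
    have h1 : b = ((v⁻¹ : (Matrix (Fin m) (Fin m) F)ˣ) : Matrix (Fin m) (Fin m) F) * (a' * v) := by
      rw [← hv, ← Matrix.mul_assoc, Units.inv_mul, Matrix.one_mul]
    conv_rhs => rw [h1]
    rw [Matrix.mul_assoc, Matrix.mul_assoc, ← Matrix.mul_assoc (v : Matrix (Fin m) (Fin m) F),
      Units.mul_inv, Matrix.one_mul]

/-- The index of the `m`-th powers. -/
lemma card_pow_quot (F : Type) [Field F] [Finite F] {m : ℕ} (hm : 0 < m) :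
    Nat.card (Fˣ ⧸ (powMonoidHom m : Fˣ →* Fˣ).range) ≤ m := by
  show (powMonoidHom m : Fˣ →* Fˣ).range.index ≤ m
  rw [IsCyclic.index_powMonoidHom_range]
  exact Nat.gcd_le_right _ hm

/-- The classes of the nilpotent matrices under `SL_m(F)`. -/
theorem nil_classes_sl {m : ℕ} (hm : 0 < m) (F : Type) [Field F] [Finite F] :
    ∃ s : Fin (m * (m + 1) ^ m) → Matrix (Fin m) (Fin m) F, ∀ a : Matrix (Fin m) (Fin m) F,
      IsNilpotent a → ∃ i, IsNilpotent (s i) ∧
        ∃ g : SpecialLinearGroup (Fin m) F, (g : Matrix (Fin m) (Fin m) F) * a = s i * g := by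
  classical
  obtain ⟨t, ht⟩ := nil_classes m F
  -- a nilpotent matrix of each type
  have h1 : ∀ τ : Fin m → Fin (m + 1), ∃ b : Matrix (Fin m) (Fin m) F, ∀ a, IsNilpotent a → t a = τ →
      ∃ u : (Matrix (Fin m) (Fin m) F)ˣ, (u : Matrix (Fin m) (Fin m) F) * a = b * u := by
    intro τ
    by_cases h : ∃ b : Matrix (Fin m) (Fin m) F, IsNilpotent b ∧ t b = τ
    · obtain ⟨b, hb, hτ⟩ := h
      exact ⟨b, fun a ha hta => ht a b ha hb (hta.trans hτ.symm)⟩
    · exact ⟨0, fun a ha hta => absurd ⟨a, ha, hta⟩ h⟩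
  choose b hb using h1
  have h2 : ∀ a : Matrix (Fin m) (Fin m) F, ∃ u : (Matrix (Fin m) (Fin m) F)ˣ, IsNilpotent a →
      (u : Matrix (Fin m) (Fin m) F) * a = b (t a) * u := by
    intro a
    by_cases ha : IsNilpotent a
    · obtain ⟨u, hu⟩ := hb (t a) a ha rfl
      exact ⟨u, fun _ => hu⟩
    · exact ⟨1, fun h => absurd h ha⟩
  choose u hu using h2
  let D : (Matrix (Fin m) (Fin m) F)ˣ →* Fˣ := Units.map (Matrix.detMonoidHom)
  let c : Matrix (Fin m) (Fin m) F → (Fˣ ⧸ (powMonoidHom m : Fˣ →* Fˣ).range) × (Fin m → Fin (m + 1)) :=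
    fun a => (QuotientGroup.mk (D (u a)), t a)
  have hcard : Nat.card ((Fˣ ⧸ (powMonoidHom m : Fˣ →* Fˣ).range) × (Fin m → Fin (m + 1))) ≤
      m * (m + 1) ^ m := by
    rw [Nat.card_prod, Nat.card_fun, Nat.card_eq_fintype_card (α := Fin m),
      Nat.card_eq_fintype_card (α := Fin (m + 1)), Fintype.card_fin, Fintype.card_fin]
    exact Nat.mul_le_mul_right _ (card_pow_quot F hm)
  obtain ⟨s, hs⟩ := reps hcard c IsNilpotent
  refine ⟨s, fun a ha => ?_⟩
  obtain ⟨i, hi, hci⟩ := hs a ha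
  refine ⟨i, hi, ?_⟩
  have h3 : t (s i) = t a := (Prod.ext_iff.1 hci).2
  have h4 : (QuotientGroup.mk (D (u (s i))) : Fˣ ⧸ (powMonoidHom m : Fˣ →* Fˣ).range) =
      QuotientGroup.mk (D (u a)) := (Prod.ext_iff.1 hci).1
  obtain ⟨z, hz⟩ := QuotientGroup.eq.1 h4
  have h5 : D (u a) = D (u (s i)) * z ^ m := by
    rw [show z ^ m = (D (u (s i)))⁻¹ * D (u a) from hz, mul_inv_cancel_left]
  refine conj_sl (a' := b (t a)) (u a) (u (s i)) (hu a ha) (h3 ▸ hu (s i) hi) z ?_
  have h6 := congrArg (fun x : Fˣ => (x : F)) h5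
  simpa [D] using h6

/-- An element of order `p` of `PSL_m(F)` is the class of a unipotent matrix. -/
lemma exists_unipotent {m : ℕ} {F : Type} [Field F] [Finite F] (p : ℕ) [Fact p.Prime]
    [CharP F p] (x : ProjectiveSpecialLinearGroup (Fin m) F) (hx : x ^ p = 1) :
    ∃ g : SpecialLinearGroup (Fin m) F, (QuotientGroup.mk g : ProjectiveSpecialLinearGroup (Fin m) F) = x ∧
      IsNilpotent ((g : Matrix (Fin m) (Fin m) F) - 1) := by
  classical
  rcases Nat.eq_zero_or_pos m with rfl | hm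
  · obtain ⟨g, rfl⟩ := QuotientGroup.mk_surjective x
    exact ⟨g, rfl, ⟨1, Subsingleton.elim _ _⟩⟩
  haveI : Nonempty (Fin m) := ⟨⟨0, hm⟩⟩
  obtain ⟨S, rfl⟩ := QuotientGroup.mk_surjective x
  have h1 : S ^ p ∈ Subgroup.center (SpecialLinearGroup (Fin m) F) := by
    rw [← QuotientGroup.eq_one_iff, QuotientGroup.mk_pow]
    exact hx
  obtain ⟨r, hr1, hr2⟩ := SpecialLinearGroup.mem_center_iff.1 h1
  have hinj : Function.Injective fun y : F => y ^ p := frobenius_inj F p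
  obtain ⟨d, hd⟩ := (Finite.injective_iff_surjective.1 hinj) r
  have hd' : d ^ p = r := hd
  have hdm : d ^ m = 1 := by
    refine hinj ?_
    show (d ^ m) ^ p = 1 ^ p
    rw [← pow_mul, mul_comm, pow_mul, hd', one_pow]
    rwa [Fintype.card_fin] at hr1
  have hd0 : d ≠ 0 := by
    rintro rfl
    rw [zero_pow hm.ne'] at hdm
    exact zero_ne_one hdm
  have hdi : d⁻¹ ^ m = 1 := by rw [inv_pow, hdm, inv_one]
  obtain ⟨z, hz⟩ : ∃ z : SpecialLinearGroup (Fin m) F,
      (z : Matrix (Fin m) (Fin m) F) = Matrix.scalar (Fin m) d⁻¹ :=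
    ⟨⟨Matrix.scalar (Fin m) d⁻¹, by
      rw [Matrix.scalar_apply, Matrix.det_diagonal, Finset.prod_const, Finset.card_univ,
        Fintype.card_fin, hdi]⟩, rfl⟩
  have hzc : z ∈ Subgroup.center (SpecialLinearGroup (Fin m) F) :=
    SpecialLinearGroup.mem_center_iff.2 ⟨d⁻¹, by rw [Fintype.card_fin, hdi], hz.symm⟩
  refine ⟨S * z, ?_, p, ?_⟩
  · rw [QuotientGroup.eq]
    have h3 : (S * z)⁻¹ * S = z⁻¹ := by group
    rw [h3]
    exact (Subgroup.center _).inv_mem hzc
  · have h3 : S * z = z * S := (Subgroup.mem_center_iff.1 hzc S)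
    have h4 : (S * z) ^ p = S ^ p * z ^ p := (show Commute S z from h3).mul_pow p
    have h5 : ((S * z : SpecialLinearGroup (Fin m) F) : Matrix (Fin m) (Fin m) F) ^ p = 1 := by
      rw [← SpecialLinearGroup.coe_pow, h4, SpecialLinearGroup.coe_mul, ← hr2,
        SpecialLinearGroup.coe_pow, hz, ← map_pow, ← map_mul, inv_pow, hd',
        mul_inv_cancel₀ (by rw [← hd']; exact pow_ne_zero _ hd0), map_one]
    rw [sub_pow_char_of_commute _ (Commute.one_right _), one_pow, h5, sub_self]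

/-- **The elements of order `p`.** -/
theorem classes_p {m : ℕ} (hm : 0 < m) (F : Type) [Field F] [Finite F] (p : ℕ) [Fact p.Prime]
    [CharP F p] : ∃ s : Fin (m * (m + 1) ^ m) → ProjectiveSpecialLinearGroup (Fin m) F,
      ∀ x : ProjectiveSpecialLinearGroup (Fin m) F, x ^ p = 1 → ∃ i,
        ∃ g : ProjectiveSpecialLinearGroup (Fin m) F, g * x * g⁻¹ = s i := by
  classical
  obtain ⟨b, hb⟩ := nil_classes_sl hm F
  have h1 : ∀ i, ∃ y : SpecialLinearGroup (Fin m) F,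
      (∃ g : SpecialLinearGroup (Fin m) F, (g : Matrix (Fin m) (Fin m) F) = 1 + b i) →
      (y : Matrix (Fin m) (Fin m) F) = 1 + b i := by
    intro i
    by_cases h : ∃ g : SpecialLinearGroup (Fin m) F, (g : Matrix (Fin m) (Fin m) F) = 1 + b i
    · exact ⟨h.choose, fun _ => h.choose_spec⟩
    · exact ⟨1, fun h' => absurd h' h⟩
  choose y hy using h1
  refine ⟨fun i => QuotientGroup.mk (y i), fun x hx => ?_⟩
  obtain ⟨g, rfl, hg⟩ := exists_unipotent p x hx
  obtain ⟨i, hi, u, hu⟩ := hb _ hg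
  refine ⟨i, QuotientGroup.mk u, ?_⟩
  have h3 : (u : Matrix (Fin m) (Fin m) F) * g = (1 + b i) * u := by
    rw [Matrix.add_mul, Matrix.one_mul, ← hu, Matrix.mul_sub, Matrix.mul_one]
    abel
  have h4 : (y i : Matrix (Fin m) (Fin m) F) = 1 + b i := by
    refine hy i ⟨u * g * u⁻¹, ?_⟩
    rw [SpecialLinearGroup.coe_mul, SpecialLinearGroup.coe_mul, h3, Matrix.mul_assoc,
      ← SpecialLinearGroup.coe_mul, mul_inv_cancel, SpecialLinearGroup.coe_one, Matrix.mul_one]
  have h2 : u * g = y i * u := by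
    apply Subtype.ext
    show (u : Matrix (Fin m) (Fin m) F) * g = y i * u
    rw [h4, h3]
  show (QuotientGroup.mk (u * g * u⁻¹) : ProjectiveSpecialLinearGroup (Fin m) F) = _
  rw [h2, mul_inv_cancel_right]

end Pool.Agent.Helper13.RK
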